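import Pool.Agent.Y846.FK.Com

/-! Project FK, job RD1: local sums of the smooth part, one pair. -/

set_option autoImplicit false

open Finset MeasureTheory Filter

open scoped Classical

namespace Pool.Agent.Y846.FK

open Pool.Agent.Y755.FK

noncomputable section

/-- the summand of a pair -/
def Hp (e f : ℤ) (a b : ℕ) : ℝ :=
  if ¬ (a = 1 ∧ f = 1) ∧ ¬ (b = 1 ∧ e = 1) then J e a * J f b * J a b else 0

theorem cc_eq (e f : ℤ) (n : ℕ) : cc e f n = ∑ a ∈ n.divisors, Hp e f a (n / a) := by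
  unfold cc Hp
  rw [sum_filter]

theorem abs_Hp_le (e f : ℤ) (a b : ℕ) : |Hp e f a b| ≤ 1 := by
  unfold Hp
  split_ifs
  · rw [abs_mul, abs_mul]
    calc |J e a| * |J f b| * |J a b| ≤ 1 * 1 * 1 := by
          gcongr <;> exact abs_J_le _ _
      _ = 1 := by norm_num
  · simp

theorem expand1 (e f : ℤ) (u : ℝ) : LR (r1 e f) u =
    ∑ a ∈ Icc 1 ⌊Real.exp u⌋₊, ∑ b ∈ Icc 1 ⌊Real.exp u⌋₊, gg u (a * b) * Hp e f a b := by
  rw [← conv _ (gg u) (fun n hn => gg_zero hn) (Hp e f)]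
  unfold LR
  refine sum_congr rfl fun k _ => ?_
  rw [← cc_eq]
  unfold r1 gg
  split_ifs <;> ring

theorem bdd (c : ℕ → ℝ) (u0 : ℝ) : ∃ M : ℝ, 0 ≤ M ∧ ∀ u : ℝ, u ≤ u0 → |LR c u| ≤ M := by
  refine ⟨∑ k ∈ Icc 1 ⌊Real.exp u0⌋₊, |c k / k|, sum_nonneg fun _ _ => abs_nonneg _, ?_⟩
  intro u hu
  rw [LR_ext c u ⌊Real.exp u0⌋₊ (Nat.floor_mono (Real.exp_le_exp.2 hu))]
  refine (abs_sum_le_sum_abs _ _).trans (sum_le_sum fun k _ => ?_)
  rw [abs_mul, abs_of_nonneg (phi_nonneg _)]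
  calc |c k / k| * φ (u - Real.log k) ≤ |c k / k| * 1 := by
        gcongr
        exact phi_le _
    _ = _ := mul_one _

theorem recip {a b : ℕ} (ha : Odd a) (hb : Odd b) : J a b = J (st b) a := by
  unfold J st
  congr 1
  rw [jacobiSym.mul_left]
  have ha4 : a % 4 = 1 ∨ a % 4 = 3 := by
    have := Nat.odd_iff.1 ha
    omega
  have hb4 : b % 4 = 1 ∨ b % 4 = 3 := by
    have := Nat.odd_iff.1 hb
    omega
  rcases hb4 with hb4 | hb4
  · rw [jacobiSym.at_neg_one hb, ZMod.χ₄_nat_one_mod_four hb4, jacobiSym.one_left, one_mul]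
    exact jacobiSym.quadratic_reciprocity_one_mod_four' ha hb4
  · rw [jacobiSym.at_neg_one hb, ZMod.χ₄_nat_three_mod_four hb4, jacobiSym.at_neg_one ha]
    rcases ha4 with ha4 | ha4
    · rw [ZMod.χ₄_nat_one_mod_four ha4, one_mul]
      exact jacobiSym.quadratic_reciprocity_one_mod_four ha4 hb
    · rw [ZMod.χ₄_nat_three_mod_four ha4]
      rw [jacobiSym.quadratic_reciprocity_three_mod_four ha4 hb4]
      ring

theorem J_mul (a b : ℤ) (n : ℕ) : J (a * b) n = J a n * J b n := by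
  unfold J
  rw [jacobiSym.mul_left, Int.cast_mul]

theorem st_natAbs {b : ℕ} (hb : Odd b) : (st b).natAbs = b := by
  unfold st
  rw [Int.natAbs_mul, jacobiSym.at_neg_one hb]
  have hb4 : b % 4 = 1 ∨ b % 4 = 3 := by
    have := Nat.odd_iff.1 hb
    omega
  rcases hb4 with hb4 | hb4
  · rw [ZMod.χ₄_nat_one_mod_four hb4]
    simp
  · rw [ZMod.χ₄_nat_three_mod_four hb4]
    simp

theorem KK_natAbs {e : ℤ} (he : e ∈ KK) : e.natAbs = 1 ∨ e.natAbs = 2 := by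
  unfold KK at he
  simp only [mem_insert, mem_singleton] at he
  rcases he with rfl | rfl | rfl | rfl <;> simp

theorem sqf_of_natAbs {e g : ℤ} {s : ℕ} (he : e ∈ KK) (hs : osf s) (hg : g.natAbs = s) :
    Squarefree (e * g) := by
  rw [← Int.squarefree_natAbs, Int.natAbs_mul, hg]
  rcases KK_natAbs he with h | h
  · rw [h, one_mul]
    exact hs.2
  · rw [h, Nat.squarefree_mul_iff]
    exact ⟨(Nat.coprime_two_left).2 hs.1, Nat.prime_two.squarefree, hs.2⟩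

theorem ne_one_of {e : ℤ} {g : ℤ} {s : ℕ} (hg : g.natAbs = s) (h1 : s = 1 → g = 1)
    (hne : ¬ (s = 1 ∧ e = 1)) : e * g ≠ 1 := by
  intro h
  have h2 := congrArg Int.natAbs h
  rw [Int.natAbs_mul, hg, Int.natAbs_one] at h2
  have h3 : s = 1 := Nat.eq_one_of_mul_eq_one_left h2
  rw [h1 h3, mul_one] at h
  exact hne ⟨h3, h⟩

theorem abs_le_of {e g : ℤ} {s : ℕ} (he : e ∈ KK) (hg : g.natAbs = s) :
    |((e * g : ℤ) : ℝ)| ≤ 2 * s := by
  have h1 : ((e * g).natAbs : ℝ) = |((e * g : ℤ) : ℝ)| := by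
    rw [Nat.cast_natAbs]
    push_cast
    rfl
  rw [← h1, Int.natAbs_mul, hg, Nat.cast_mul]
  have h2 : (e.natAbs : ℝ) ≤ 2 := by
    rcases KK_natAbs he with h | h <;> rw [h] <;> norm_num
  have : (0 : ℝ) ≤ s := Nat.cast_nonneg s
  nlinarith

theorem st_one : st 1 = 1 := by
  unfold st
  simp

/-- the parameters for large `u` -/
theorem large (B A' : ℕ) (hA' : B + 1 ≤ A') (m : ℕ) : ∃ u0 : ℝ, 1 ≤ u0 ∧ ∀ u : ℝ, u0 ≤ u →
    ∀ s : ℕ, 1 ≤ s → (s : ℝ) ≤ (u ^ B) ^ m → u / 2 ≤ u - Real.log s ∧ 1 ≤ u - Real.log s ∧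
      2 * u ^ B ≤ (u / 2) ^ A' ∧ (s : ℝ) < Real.exp (u - 1) := by
  have h1 : ∀ᶠ u : ℝ in atTop, ‖Real.log u‖ ≤ (1 / (4 * (m * B + 1) : ℝ)) * ‖id u‖ :=
    Real.isLittleO_log_id_atTop.bound (by positivity)
  obtain ⟨u1, hu1⟩ := eventually_atTop.1 h1
  refine ⟨max (max u1 4) (2 ^ (A' + 1)), ?_, ?_⟩
  · have := le_max_left (max u1 4) ((2 : ℝ) ^ (A' + 1))
    have := le_max_right u1 4
    linarith
  intro u hu s hs1 hs
  have hu1' : u1 ≤ u := ((le_max_left _ _).trans (le_max_left _ _)).trans hu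
  have hu4 : 4 ≤ u := ((le_max_right _ _).trans (le_max_left _ _)).trans hu
  have hu2 : (2 : ℝ) ^ (A' + 1) ≤ u := (le_max_right _ _).trans hu
  have hlog0 : 0 ≤ Real.log u := Real.log_nonneg (by linarith)
  have h2 := hu1 u hu1'
  rw [Real.norm_eq_abs, Real.norm_eq_abs, abs_of_nonneg hlog0, id, abs_of_nonneg (by linarith)] at h2
  have hB0 : (0 : ℝ) ≤ m * B := by positivity
  have h3 : (m * B : ℝ) * Real.log u ≤ u / 4 := by
    have h5 : (m * B : ℝ) * (1 / (4 * (m * B + 1) : ℝ)) ≤ 1 / 4 := by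
      rw [mul_one_div, div_le_div_iff₀ (by positivity) (by norm_num)]
      linarith
    calc (m * B : ℝ) * Real.log u ≤ (m * B : ℝ) * ((1 / (4 * (m * B + 1) : ℝ)) * u) :=
          mul_le_mul_of_nonneg_left h2 hB0
      _ = (m * B : ℝ) * (1 / (4 * (m * B + 1) : ℝ)) * u := by ring
      _ ≤ 1 / 4 * u := mul_le_mul_of_nonneg_right h5 (by linarith)
      _ = u / 4 := by ring
  have hs0 : (0 : ℝ) < s := by positivity
  have h4 : Real.log s ≤ u / 4 := by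
    calc Real.log s ≤ Real.log ((u ^ B) ^ m) := Real.log_le_log hs0 hs
      _ = m * B * Real.log u := by
        rw [Real.log_pow, Real.log_pow]
        ring
      _ ≤ u / 4 := h3
  refine ⟨by linarith, by linarith, ?_, ?_⟩
  · have h5 : (0 : ℝ) < 2 ^ A' := by positivity
    rw [div_pow, le_div_iff₀ h5]
    have h6 : u ^ (B + 1) ≤ u ^ A' := pow_le_pow_right₀ (by linarith) hA'
    have h7 : (0 : ℝ) ≤ u ^ B := by positivity
    calc 2 * u ^ B * 2 ^ A' = u ^ B * 2 ^ (A' + 1) := by ring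
      _ ≤ u ^ B * u := mul_le_mul_of_nonneg_left hu2 h7
      _ = u ^ (B + 1) := by ring
      _ ≤ u ^ A' := h6
  · rw [← Real.log_lt_iff_lt_exp hs0]
    linarith

/-- a small factor and one free variable -/
theorem small1 {A' : ℕ} {C : ℝ} (hC : ∀ (u : ℝ) (n : ℕ) (D D' : ℤ), 1 ≤ u → 1 ≤ n →
    Squarefree D → Squarefree D' → D ≠ 1 → D' ≠ 1 → |(D : ℝ)| ≤ u ^ A' → |(D' : ℝ)| ≤ u ^ A' →
    |LR (cs1 D n) u| ≤ C * 2 ^ om n / u ^ A' ∧ |LR (cs2 D D' n) u| ≤ C * 2 ^ om n / u ^ A')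
    (u : ℝ) (D : ℤ) (n : ℕ) (hn : osf n) (hD : Squarefree D) (hD1 : D ≠ 1)
    (h1 : 1 ≤ u - Real.log n) (h2 : u / 2 ≤ u - Real.log n) (hu : 0 < u)
    (hDu : |(D : ℝ)| ≤ (u / 2) ^ A') :
    |∑ t ∈ Icc 1 ⌊Real.exp u⌋₊, gg u (n * t) * J D t| ≤ C * (2 / u) ^ A' := by
  rw [sum1 u D n hn]
  have hn1 := osf_pos hn
  have hDu' : |(D : ℝ)| ≤ (u - Real.log n) ^ A' :=
    hDu.trans (pow_le_pow_left₀ (by linarith) h2 A')
  have h3 := (hC (u - Real.log n) n D D h1 hn1 hD hD hD1 hD1 hDu' hDu').1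
  have hn0 : (1 : ℝ) ≤ n := by exact_mod_cast hn1
  have hv : (0 : ℝ) < (u - Real.log n) ^ A' := by positivity
  have hC0 : 0 ≤ C := by
    have h4 := (abs_nonneg _).trans h3
    rw [div_nonneg_iff] at h4
    rcases h4 with h4 | h4
    · exact nonneg_of_mul_nonneg_left h4.1 (by positivity)
    · linarith [h4.2]
  rw [abs_mul, abs_of_nonneg (show (0 : ℝ) ≤ (1 / 2 : ℝ) ^ om n / n by positivity)]
  calc (1 / 2 : ℝ) ^ om n / n * |LR (cs1 D n) (u - Real.log n)|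
      ≤ (1 / 2 : ℝ) ^ om n / n * (C * 2 ^ om n / (u - Real.log n) ^ A') := by gcongr
    _ = ((1 / 2 : ℝ) ^ om n * 2 ^ om n) * (C / (n * (u - Real.log n) ^ A')) := by
        field_simp
    _ = C / (n * (u - Real.log n) ^ A') := by
        rw [← mul_pow]
        norm_num
    _ ≤ C / (1 * (u / 2) ^ A') := by gcongr
    _ = C * (2 / u) ^ A' := by
        rw [one_mul, div_eq_mul_inv, ← inv_pow, inv_div]

theorem t_RD1 : S_SEP → S_SW → S_RD1 := by
  intro hSEP hSW e f A he hf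
  obtain ⟨K, hK⟩ := LL hSEP
  obtain ⟨M, hM⟩ : ∃ M, M = A + K + 2 := ⟨_, rfl⟩
  obtain ⟨B, hB⟩ : ∃ B, B = 8 * M := ⟨_, rfl⟩
  obtain ⟨A', hA'⟩ : ∃ A', A' = A + B + 1 := ⟨_, rfl⟩
  obtain ⟨C1, hC10, hC1⟩ := hK B
  obtain ⟨C2, hC2⟩ := hSW A'
  obtain ⟨u0, hu0, hlarge⟩ := large B A' (by omega) 2
  obtain ⟨M0, hM00, hM0⟩ := bdd (r1 e f) u0
  refine ⟨max (M0 * u0 ^ A) (C1 * 2 ^ (K + 2) * 2 + 2 * |C2| * 2 ^ A'), ?_⟩
  intro u hu
  have hupos : 0 < u := by linarith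
  rcases le_total u u0 with hle | hge
  · rw [le_div_iff₀ (by positivity)]
    refine le_trans ?_ (le_max_left _ _)
    exact mul_le_mul (hM0 u hle) (pow_le_pow_left₀ hupos.le hle A) (by positivity) hM00
  rw [le_div_iff₀ (by positivity)]
  refine le_trans ?_ (le_max_right _ _)
  obtain ⟨N, hN⟩ : ∃ N, N = ⌊Real.exp u⌋₊ := ⟨_, rfl⟩
  obtain ⟨z, hz⟩ : ∃ z, z = ⌊u ^ B⌋₊ := ⟨_, rfl⟩
  have huB : 1 ≤ u ^ B := one_le_pow₀ hu
  have hz1 : 1 ≤ z := by
    rw [hz]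
    exact (Nat.one_le_floor_iff _).2 huB
  have hzB : (z : ℝ) ≤ u ^ B := by
    rw [hz]
    exact Nat.floor_le (by positivity)
  have hzlow : u ^ B / 2 ≤ z := by
    have := Nat.lt_floor_add_one (u ^ B)
    rw [← hz] at this
    have hz1' : (1 : ℝ) ≤ z := by exact_mod_cast hz1
    linarith
  have hz0 : (0 : ℝ) < z := by positivity
  -- consequences for small factors
  have hs1 : ∀ s : ℕ, 1 ≤ s → s ≤ z → u / 2 ≤ u - Real.log s ∧ 1 ≤ u - Real.log s ∧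
      2 * u ^ B ≤ (u / 2) ^ A' := by
    intro s hs hsz
    have h1 : (s : ℝ) ≤ (u ^ B) ^ 2 := by
      have h2 : (s : ℝ) ≤ u ^ B := (by exact_mod_cast hsz : (s : ℝ) ≤ z).trans hzB
      nlinarith
    have := hlarge u hge s hs h1
    exact ⟨this.1, this.2.1, this.2.2.1⟩
  have hs2 : ∀ s t : ℕ, 1 ≤ s → s ≤ z → 1 ≤ t → t ≤ z → gg u (s * t) = 0 := by
    intro s t hs hsz ht htz
    have h1 : ((s * t : ℕ) : ℝ) ≤ (u ^ B) ^ 2 := by
      have h2 : (s : ℝ) ≤ u ^ B := (by exact_mod_cast hsz : (s : ℝ) ≤ z).trans hzB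
      have h3 : (t : ℝ) ≤ u ^ B := (by exact_mod_cast htz : (t : ℝ) ≤ z).trans hzB
      rw [Nat.cast_mul, sq]
      gcongr
    exact gg_small (Nat.mul_pos hs ht) (hlarge u hge (s * t) (Nat.mul_pos hs ht) h1).2.2.2
  have hzN : z ≤ N := by
    have h1 : (z : ℝ) ≤ (u ^ B) ^ 2 := by nlinarith
    have h2 := (hlarge u hge z hz1 h1).2.2.2
    have h3 : (z : ℝ) ≤ Real.exp u := h2.le.trans (Real.exp_le_exp.2 (by linarith))
    rw [hN]
    exact Nat.le_floor h3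
  obtain ⟨S, hS⟩ : ∃ S : ℝ, S = |C2| * (2 / u) ^ A' := ⟨_, rfl⟩
  have hS0 : 0 ≤ S := by
    rw [hS]
    positivity
  have hsm : ∀ (D : ℤ) (n : ℕ), osf n → n ≤ z → Squarefree D → D ≠ 1 → |(D : ℝ)| ≤ 2 * n →
      |∑ t ∈ Icc 1 N, gg u (n * t) * J D t| ≤ S := by
    intro D n hn hnz hD hD1 hDn
    obtain ⟨h1, h2, h3⟩ := hs1 n (osf_pos hn) hnz
    have h4 : (n : ℝ) ≤ u ^ B := (by exact_mod_cast hnz : (n : ℝ) ≤ z).trans hzB
    rw [hN, hS]
    refine (small1 hC2 u D n hn hD hD1 h2 h1 hupos (by linarith)).trans ?_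
    gcongr
    exact le_abs_self C2
  have split : ∀ F : ℕ → ℝ, ∑ a ∈ Icc 1 N, F a = ∑ a ∈ Icc 1 z, F a + ∑ a ∈ Ioc z N, F a := by
    intro F
    have h1 : Icc 1 N = Ioc 0 N := rfl
    have h2 : Icc 1 z = Ioc 0 z := rfl
    rw [h1, h2, sum_Ioc_consecutive F (Nat.zero_le z) hzN]
  -- first part
  have T1 : ∀ a ∈ Icc 1 z, |∑ b ∈ Icc 1 N, gg u (a * b) * Hp e f a b| ≤ S := by
    intro a ha
    rw [mem_Icc] at ha
    by_cases hdeg : a = 1 ∧ f = 1
    · rw [sum_eq_zero, abs_zero]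
      · exact hS0
      intro b _
      unfold Hp
      rw [if_neg (fun h => h.1 hdeg), mul_zero]
    by_cases ho : osf a
    swap
    · rw [sum_eq_zero, abs_zero]
      · exact hS0
      intro b _
      unfold gg
      rw [if_neg (fun h => ho (osf_mul.1 h).1), zero_mul]
    have e1 : ∑ b ∈ Icc 1 N, gg u (a * b) * Hp e f a b =
        J e a * ∑ b ∈ Icc 1 N, gg u (a * b) * J (f * a) b := by
      rw [mul_sum]
      refine sum_congr rfl fun b hb => ?_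
      by_cases hb1 : b = 1 ∧ e = 1
      · rw [hb1.1, hs2 a 1 ha.1 ha.2 le_rfl hz1]
        ring
      · unfold Hp
        rw [if_pos ⟨hdeg, hb1⟩, J_mul]
        ring
    rw [e1, abs_mul]
    have h5 := hsm (f * a) a ho ha.2 (sqf_of_natAbs hf ho (Int.natAbs_natCast a))
      (ne_one_of (Int.natAbs_natCast a) (fun h => by rw [h]; rfl) hdeg)
      (abs_le_of hf (Int.natAbs_natCast a))
    calc |J e a| * |∑ b ∈ Icc 1 N, gg u (a * b) * J (f * a) b| ≤ 1 * S :=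
          mul_le_mul (abs_J_le _ _) h5 (abs_nonneg _) zero_le_one
      _ = S := one_mul S
  -- second part
  have T2 : ∀ b ∈ Icc 1 z, |∑ a ∈ Ioc z N, gg u (a * b) * Hp e f a b| ≤ S := by
    intro b hb
    rw [mem_Icc] at hb
    by_cases hdeg : b = 1 ∧ e = 1
    · rw [sum_eq_zero, abs_zero]
      · exact hS0
      intro a _
      unfold Hp
      rw [if_neg (fun h => h.2 hdeg), mul_zero]
    by_cases ho : osf b
    swap
    · rw [sum_eq_zero, abs_zero]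
      · exact hS0
      intro a _
      unfold gg
      rw [if_neg (fun h => ho (osf_mul.1 h).2.1), zero_mul]
    have e1 : ∑ a ∈ Ioc z N, gg u (a * b) * Hp e f a b =
        J f b * ∑ a ∈ Icc 1 N, gg u (b * a) * J (e * st b) a := by
      rw [split]
      have h0 : ∑ a ∈ Icc 1 z, gg u (b * a) * J (e * st b) a = 0 := by
        refine sum_eq_zero fun a ha => ?_
        rw [mem_Icc] at ha
        rw [hs2 b a hb.1 hb.2 ha.1 ha.2, zero_mul]
      rw [h0, zero_add, mul_sum]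
      refine sum_congr rfl fun a ha => ?_
      rw [mem_Ioc] at ha
      by_cases hoab : osf (a * b)
      · have ha1 : a ≠ 1 := by omega
        unfold Hp
        rw [if_pos ⟨fun h => ha1 h.1, hdeg⟩, J_mul, recip (osf_mul.1 hoab).1.1 ho.1, mul_comm b a]
        ring
      · have : gg u (a * b) = 0 := by
          unfold gg
          rw [if_neg hoab]
        rw [mul_comm b a, this]
        ring
    rw [e1, abs_mul]
    have hst := st_natAbs ho.1
    have h5 := hsm (e * st b) b ho hb.2 (sqf_of_natAbs he ho hst)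
      (ne_one_of hst (fun h => by rw [h]; exact st_one) hdeg) (abs_le_of he hst)
    calc |J f b| * |∑ a ∈ Icc 1 N, gg u (b * a) * J (e * st b) a| ≤ 1 * S :=
          mul_le_mul (abs_J_le _ _) h5 (abs_nonneg _) zero_le_one
      _ = S := one_mul S
  -- third part
  have T3 : |∑ a ∈ Ioc z N, ∑ b ∈ Ioc z N, gg u (a * b) * Hp e f a b| ≤
      C1 * (1 + u) ^ (K + 2) * (z : ℝ) ^ (-(1 / 8) : ℝ) := by
    have h1 := hC1 u z e f 1 hu hz1 hzB le_rfl
    rw [← hN, Nat.cast_one, div_one] at h1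
    refine le_trans (le_of_eq ?_) h1
    congr 1
    refine sum_congr rfl fun a ha => sum_congr rfl fun b hb => ?_
    rw [mem_Ioc] at ha hb
    unfold Hp
    rw [if_pos ⟨fun h => by omega, fun h => by omega⟩, one_mul]
  rw [expand1, ← hN, split]
  have e2 : ∑ a ∈ Ioc z N, ∑ b ∈ Icc 1 N, gg u (a * b) * Hp e f a b =
      ∑ b ∈ Icc 1 z, ∑ a ∈ Ioc z N, gg u (a * b) * Hp e f a b +
        ∑ a ∈ Ioc z N, ∑ b ∈ Ioc z N, gg u (a * b) * Hp e f a b := by
    rw [sum_comm (s := Icc 1 z), ← sum_add_distrib]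
    exact sum_congr rfl fun a _ => split _
  rw [e2]
  have b1 : |∑ a ∈ Icc 1 z, ∑ b ∈ Icc 1 N, gg u (a * b) * Hp e f a b| ≤ z * S := by
    refine (abs_sum_le_sum_abs _ _).trans ((sum_le_sum T1).trans (le_of_eq ?_))
    rw [sum_const, Nat.card_Icc]
    simp
  have b2 : |∑ b ∈ Icc 1 z, ∑ a ∈ Ioc z N, gg u (a * b) * Hp e f a b| ≤ z * S := by
    refine (abs_sum_le_sum_abs _ _).trans ((sum_le_sum T2).trans (le_of_eq ?_))
    rw [sum_const, Nat.card_Icc]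
    simp
  have b3 : |∑ a ∈ Icc 1 z, ∑ b ∈ Icc 1 N, gg u (a * b) * Hp e f a b +
      (∑ b ∈ Icc 1 z, ∑ a ∈ Ioc z N, gg u (a * b) * Hp e f a b +
        ∑ a ∈ Ioc z N, ∑ b ∈ Ioc z N, gg u (a * b) * Hp e f a b)| ≤
      z * S + (z * S + C1 * (1 + u) ^ (K + 2) * (z : ℝ) ^ (-(1 / 8) : ℝ)) :=
    (abs_add_le _ _).trans (add_le_add b1 ((abs_add_le _ _).trans (add_le_add b2 T3)))
  have hzr : (z : ℝ) ^ (-(1 / 8) : ℝ) ≤ 2 / u ^ M := by
    have h1 : (u ^ M / 2) ^ 8 ≤ z := by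
      have h2 : (u ^ M / 2) ^ 8 = u ^ B / 256 := by
        rw [div_pow, ← pow_mul, hB, mul_comm M 8]
        norm_num
      rw [h2]
      linarith
    have h3 : (0 : ℝ) < u ^ M / 2 := by positivity
    calc (z : ℝ) ^ (-(1 / 8) : ℝ) ≤ ((u ^ M / 2) ^ 8) ^ (-(1 / 8) : ℝ) :=
          Real.rpow_le_rpow_of_nonpos (by positivity) h1 (by norm_num)
      _ = 2 / u ^ M := by
          rw [← Real.rpow_natCast, ← Real.rpow_mul h3.le]
          norm_num
          rw [Real.rpow_neg_one, inv_div]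
  have b4 : (z * S) * u ^ A ≤ |C2| * 2 ^ A' := by
    rw [hS]
    calc (z : ℝ) * (|C2| * (2 / u) ^ A') * u ^ A ≤ u ^ B * (|C2| * (2 / u) ^ A') * u ^ A := by
          gcongr
      _ = |C2| * 2 ^ A' * (u ^ (A + B) / u ^ A') := by
          rw [div_pow, pow_add]
          field_simp
      _ ≤ |C2| * 2 ^ A' * 1 := by
          gcongr
          rw [div_le_one (by positivity)]
          exact pow_le_pow_right₀ hu (by omega)
      _ = _ := mul_one _
  have b5 : (C1 * (1 + u) ^ (K + 2) * (z : ℝ) ^ (-(1 / 8) : ℝ)) * u ^ A ≤ C1 * 2 ^ (K + 2) * 2 := by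
    calc (C1 * (1 + u) ^ (K + 2) * (z : ℝ) ^ (-(1 / 8) : ℝ)) * u ^ A
        ≤ (C1 * (2 * u) ^ (K + 2) * (2 / u ^ M)) * u ^ A := by
          gcongr
          linarith
      _ = C1 * 2 ^ (K + 2) * 2 := by
          rw [hM, mul_pow, show A + K + 2 = (K + 2) + A by omega, pow_add u (K + 2) A]
          field_simp
  calc |∑ a ∈ Icc 1 z, ∑ b ∈ Icc 1 N, gg u (a * b) * Hp e f a b +
      (∑ b ∈ Icc 1 z, ∑ a ∈ Ioc z N, gg u (a * b) * Hp e f a b +
        ∑ a ∈ Ioc z N, ∑ b ∈ Ioc z N, gg u (a * b) * Hp e f a b)| * u ^ A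
      ≤ (z * S + (z * S + C1 * (1 + u) ^ (K + 2) * (z : ℝ) ^ (-(1 / 8) : ℝ))) * u ^ A := by
        gcongr
    _ = (z * S) * u ^ A + (z * S) * u ^ A +
        (C1 * (1 + u) ^ (K + 2) * (z : ℝ) ^ (-(1 / 8) : ℝ)) * u ^ A := by ring
    _ ≤ |C2| * 2 ^ A' + |C2| * 2 ^ A' + C1 * 2 ^ (K + 2) * 2 := by
        gcongr
    _ = _ := by ring

end

end Pool.Agent.Y846.FK
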