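import Pool.Agent.Y755.FK.Stm

/-! Project FK: common lemmas for the local sums of the smooth part. -/

set_option autoImplicit false

open Finset MeasureTheory Filter

open scoped Classical

namespace Pool.Agent.Y846.FK

open Pool.Agent.Y755.FK

noncomputable section

/-- the weight of a product -/
def gg (u : ℝ) (n : ℕ) : ℝ :=
  if osf n then (1 / 2 : ℝ) ^ om n / n * φ (u - Real.log n) else 0

theorem phi_neg {v : ℝ} (h : v < 0) : φ v = 0 := by
  unfold φ
  rw [if_neg]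
  rintro ⟨h0, -⟩
  linarith

theorem phi_gt {v : ℝ} (h : 1 < v) : φ v = 0 := by
  unfold φ
  rw [if_neg]
  rintro ⟨-, h0⟩
  linarith

theorem phi_nonneg (v : ℝ) : 0 ≤ φ v := by
  unfold φ
  split_ifs
  · positivity
  · exact le_refl 0

theorem phi_le (v : ℝ) : φ v ≤ 1 := by
  unfold φ
  split_ifs with h
  · have h1 : 0 ≤ v * (1 - v) := mul_nonneg h.1 (by linarith [h.2])
    have h2 : v * (1 - v) ≤ 1 := by nlinarith [h.1, h.2]
    calc (v * (1 - v)) ^ 2 ≤ 1 ^ 2 := pow_le_pow_left₀ h1 h2 2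
      _ = 1 := one_pow 2
  · exact zero_le_one

theorem abs_J_le (a : ℤ) (n : ℕ) : |J a n| ≤ 1 := by
  unfold J
  rcases jacobiSym.trichotomy a n with h | h | h <;> rw [h] <;> simp

theorem gg_zero {u : ℝ} {n : ℕ} (h : ⌊Real.exp u⌋₊ < n) : gg u n = 0 := by
  unfold gg
  split_ifs with ho
  · have h1 : Real.exp u < n := (Nat.floor_lt (Real.exp_pos u).le).1 h
    have h3 : 0 < n := by omega
    have h2 : u < Real.log n := (Real.lt_log_iff_exp_lt (by positivity)).2 h1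
    rw [phi_neg (by linarith), mul_zero]
  · rfl

theorem gg_small {u : ℝ} {n : ℕ} (hn : 1 ≤ n) (h : (n : ℝ) < Real.exp (u - 1)) : gg u n = 0 := by
  unfold gg
  split_ifs with ho
  · have h2 : Real.log n < u - 1 := (Real.log_lt_iff_lt_exp (by positivity)).2 h
    rw [phi_gt (by linarith), mul_zero]
  · rfl

theorem osf_pos {n : ℕ} (h : osf n) : 1 ≤ n := by
  rcases Nat.eq_zero_or_pos n with h0 | h0
  · subst h0
    exact absurd h.1 (by decide)
  · exact h0

theorem osf_mul {m n : ℕ} : osf (m * n) ↔ osf m ∧ osf n ∧ Nat.Coprime m n := by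
  unfold osf
  rw [Nat.odd_mul, Nat.squarefree_mul_iff]
  tauto

theorem om_mul {m n : ℕ} (h : Nat.Coprime m n) : om (m * n) = om m + om n := by
  unfold om
  rw [h.primeFactors_mul, card_union_of_disjoint h.disjoint_primeFactors]

theorem gg_mul {u : ℝ} {n j : ℕ} (hn : osf n) : gg u (n * j) =
    (1 / 2 : ℝ) ^ om n / n * ((if osf j ∧ Nat.Coprime j n then (1 / 2 : ℝ) ^ om j else 0) / j *
      φ (u - Real.log n - Real.log j)) := by
  have hn0 : (n : ℝ) ≠ 0 := by
    have := osf_pos hn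
    positivity
  unfold gg
  by_cases h : osf j ∧ Nat.Coprime j n
  · have h1 : osf (n * j) := osf_mul.2 ⟨hn, h.1, h.2.symm⟩
    have hj0 : (j : ℝ) ≠ 0 := by
      have := osf_pos h.1
      positivity
    rw [if_pos h1, if_pos h, om_mul h.2.symm, Nat.cast_mul, Real.log_mul hn0 hj0, pow_add,
      show u - (Real.log n + Real.log j) = u - Real.log n - Real.log j by ring]
    field_simp
  · have h1 : ¬ osf (n * j) := by
      intro h1
      rw [osf_mul] at h1
      exact h ⟨h1.2.1, h1.2.2.symm⟩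
    rw [if_neg h1, if_neg h]
    ring

theorem abs_gg_le {u : ℝ} {n : ℕ} : |gg u n| ≤ 1 / n := by
  unfold gg
  split_ifs with ho
  · rw [abs_mul, abs_of_nonneg (phi_nonneg _), abs_of_nonneg (by positivity)]
    have h1 : (1 / 2 : ℝ) ^ om n ≤ 1 := pow_le_one₀ (by norm_num) (by norm_num)
    have h2 : (1 / 2 : ℝ) ^ om n / n ≤ 1 / n := by
      apply div_le_div_of_nonneg_right h1
      positivity
    calc (1 / 2 : ℝ) ^ om n / n * φ (u - Real.log n) ≤ 1 / n * 1 :=
        mul_le_mul h2 (phi_le _) (phi_nonneg _) (by positivity)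
      _ = 1 / n := mul_one _
  · rw [abs_zero]
    positivity

/-- the sum over the factorizations -/
theorem conv (N : ℕ) (w : ℕ → ℝ) (hw : ∀ n, N < n → w n = 0) (h : ℕ → ℕ → ℝ) :
    ∑ k ∈ Icc 1 N, w k * ∑ a ∈ k.divisors, h a (k / a) =
      ∑ a ∈ Icc 1 N, ∑ b ∈ Icc 1 N, w (a * b) * h a b := by
  symm
  rw [← sum_product' (Icc 1 N) (Icc 1 N) (fun a b => w (a * b) * h a b)]
  have e1 : ∑ x ∈ Icc 1 N ×ˢ Icc 1 N, w (x.1 * x.2) * h x.1 x.2 =
      ∑ x ∈ (Icc 1 N ×ˢ Icc 1 N).filter (fun x => x.1 * x.2 ≤ N), w (x.1 * x.2) * h x.1 x.2 := by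
    symm
    apply sum_filter_of_ne
    intro x _ hx
    by_contra hc
    rw [hw _ (not_le.1 hc), zero_mul] at hx
    exact hx rfl
  rw [e1, ← sum_fiberwise_of_maps_to (t := Icc 1 N) (g := fun x : ℕ × ℕ => x.1 * x.2)]
  · refine sum_congr rfl fun k hk => ?_
    have hk1 := (mem_Icc.1 hk).1
    have hk2 := (mem_Icc.1 hk).2
    rw [← Nat.sum_divisorsAntidiagonal (f := fun a b => h a b), mul_sum]
    apply sum_congr
    · ext ⟨a, b⟩
      simp only [mem_filter, mem_product, mem_Icc, Nat.mem_divisorsAntidiagonal]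
      constructor
      · rintro ⟨⟨-, -⟩, h3⟩
        exact ⟨h3, by omega⟩
      · rintro ⟨h3, h4⟩
        have ha : 1 ≤ a := by
          rcases Nat.eq_zero_or_pos a with h0 | h0
          · rw [h0, zero_mul] at h3
            omega
          · exact h0
        have hb : 1 ≤ b := by
          rcases Nat.eq_zero_or_pos b with h0 | h0
          · rw [h0, mul_zero] at h3
            omega
          · exact h0
        have ha' : a ≤ a * b := Nat.le_mul_of_pos_right a hb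
        have hb' : b ≤ a * b := Nat.le_mul_of_pos_left b ha
        refine ⟨⟨⟨⟨ha, by omega⟩, ⟨hb, by omega⟩⟩, by omega⟩, h3⟩
    · rintro ⟨a, b⟩ hab
      rw [Nat.mem_divisorsAntidiagonal] at hab
      simp only
      rw [hab.1]
  · rintro ⟨a, b⟩ hab
    simp only [mem_filter, mem_product, mem_Icc] at hab ⊢
    refine ⟨?_, hab.2⟩
    exact Nat.mul_pos hab.1.1.1 hab.1.2.1

theorem LR_ext (c : ℕ → ℝ) (v : ℝ) (N : ℕ) (hN : ⌊Real.exp v⌋₊ ≤ N) :
    LR c v = ∑ k ∈ Icc 1 N, c k / k * φ (v - Real.log k) := by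
  unfold LR
  apply sum_subset (Icc_subset_Icc_right hN)
  intro k hk hk'
  rw [mem_Icc] at hk hk'
  have h0 : ⌊Real.exp v⌋₊ < k := by
    by_contra hc
    exact hk' ⟨hk.1, not_lt.1 hc⟩
  have h1 : Real.exp v < k := (Nat.floor_lt (Real.exp_pos v).le).1 h0
  have h2 : v < Real.log k := (Real.lt_log_iff_exp_lt (by have := hk.1; positivity)).2 h1
  rw [phi_neg (by linarith), mul_zero]

theorem floor_le (u : ℝ) {n : ℕ} (hn : 1 ≤ n) :
    ⌊Real.exp (u - Real.log n)⌋₊ ≤ ⌊Real.exp u⌋₊ := by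
  apply Nat.floor_mono
  apply Real.exp_le_exp.2
  have : 0 ≤ Real.log n := Real.log_natCast_nonneg n
  linarith

/-- one free variable -/
theorem sum1 (u : ℝ) (D : ℤ) (n : ℕ) (hn : osf n) :
    ∑ t ∈ Icc 1 ⌊Real.exp u⌋₊, gg u (n * t) * J D t =
      (1 / 2 : ℝ) ^ om n / n * LR (cs1 D n) (u - Real.log n) := by
  rw [LR_ext _ _ _ (floor_le u (osf_pos hn)), mul_sum]
  refine sum_congr rfl fun t _ => ?_
  rw [gg_mul hn]
  unfold cs1
  split_ifs <;> ring

/-- two free variables -/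
theorem sum2 (u : ℝ) (D D' : ℤ) (n : ℕ) (hn : osf n) :
    ∑ t ∈ Icc 1 ⌊Real.exp u⌋₊, ∑ t' ∈ Icc 1 ⌊Real.exp u⌋₊, gg u (n * (t * t')) * (J D t * J D' t') =
      (1 / 2 : ℝ) ^ om n / n * LR (cs2 D D' n) (u - Real.log n) := by
  rw [← conv ⌊Real.exp u⌋₊ (fun k => gg u (n * k)) ?_ (fun a b => J D a * J D' b)]
  · rw [LR_ext _ _ _ (floor_le u (osf_pos hn)), mul_sum]
    refine sum_congr rfl fun t _ => ?_
    rw [gg_mul hn]
    unfold cs2
    split_ifs <;> ring
  · intro m hm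
    apply gg_zero
    calc ⌊Real.exp u⌋₊ < m := hm
      _ ≤ n * m := Nat.le_mul_of_pos_left m (osf_pos hn)

theorem sum_dyadic (F : ℕ → ℝ) (z L : ℕ) : ∑ a ∈ Ioc z (z * 2 ^ L), F a =
    ∑ i ∈ range L, ∑ a ∈ Ioc (z * 2 ^ i) (2 * (z * 2 ^ i)), F a := by
  induction L with
  | zero => simp
  | succ L ih =>
    rw [sum_range_succ, ← ih]
    have e : z * 2 ^ (L + 1) = 2 * (z * 2 ^ L) := by ring
    rw [e]
    symm
    apply sum_Ioc_consecutive
    · exact Nat.le_mul_of_pos_right z (by positivity)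
    · omega

/-- one dyadic box -/
theorem box {C : ℝ} {K : ℕ} (hC : ∀ (X Y : ℕ) (α β : ℕ → ℂ) (u : ℝ), 1 ≤ X → 1 ≤ Y →
    (∀ n, ‖α n‖ ≤ 1) → (∀ n, ‖β n‖ ≤ 1) →
    ‖∑ x ∈ (Ioc X (2 * X)).filter osf, ∑ y ∈ (Ioc Y (2 * Y)).filter osf,
      α x * β y * (J x y : ℂ) * ((φ (u - Real.log x - Real.log y) : ℝ) : ℂ)‖ ≤
    C * (X * Y) * (1 + Real.log (X * Y)) ^ K * ((min X Y : ℕ) : ℝ) ^ (-(1 / 8) : ℝ))
    (u : ℝ) (X Y : ℕ) (hX : 1 ≤ X) (hY : 1 ≤ Y) (e f : ℤ) (n : ℕ) (hn : 1 ≤ n) :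
    |∑ a ∈ Ioc X (2 * X), ∑ b ∈ Ioc Y (2 * Y), gg u (n * (a * b)) * (J e a * J f b * J a b)| ≤
      C * (1 + Real.log (X * Y)) ^ K * ((min X Y : ℕ) : ℝ) ^ (-(1 / 8) : ℝ) / n := by
  have hX0 : (0 : ℝ) < X := by positivity
  have hY0 : (0 : ℝ) < Y := by positivity
  have hn0 : (0 : ℝ) < n := by positivity
  have hnon : 0 ≤ C * (1 + Real.log (X * Y)) ^ K * ((min X Y : ℕ) : ℝ) ^ (-(1 / 8) : ℝ) := by
    have h1 := (norm_nonneg _).trans (hC X Y 0 0 u hX hY (by simp) (by simp))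
    have h2 : C * (X * Y) * (1 + Real.log (X * Y)) ^ K * ((min X Y : ℕ) : ℝ) ^ (-(1 / 8) : ℝ) =
      (X * Y) * (C * (1 + Real.log (X * Y)) ^ K * ((min X Y : ℕ) : ℝ) ^ (-(1 / 8) : ℝ)) := by ring
    rw [h2] at h1
    exact nonneg_of_mul_nonneg_right h1 (by positivity)
  by_cases ho : osf n
  swap
  · have : ∑ a ∈ Ioc X (2 * X), ∑ b ∈ Ioc Y (2 * Y),
        gg u (n * (a * b)) * (J e a * J f b * J a b) = 0 := by
      refine sum_eq_zero fun a _ => sum_eq_zero fun b _ => ?_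
      have h1 : ¬ osf (n * (a * b)) := fun h => ho (osf_mul.1 h).1
      unfold gg
      rw [if_neg h1, zero_mul]
    rw [this, abs_zero]
    positivity
  obtain ⟨α, hα⟩ : ∃ α : ℕ → ℂ, α = fun a => if X < a ∧ Nat.Coprime a n then
    (((1 / 2 : ℝ) ^ om a * J e a * (X / a) : ℝ) : ℂ) else 0 := ⟨_, rfl⟩
  obtain ⟨β, hβ⟩ : ∃ β : ℕ → ℂ, β = fun a => if Y < a ∧ Nat.Coprime a n then
    (((1 / 2 : ℝ) ^ om a * J f a * (Y / a) : ℝ) : ℂ) else 0 := ⟨_, rfl⟩
  have key : ∀ (Z : ℕ) (g : ℤ) (a : ℕ), 1 ≤ Z →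
      ‖(if Z < a ∧ Nat.Coprime a n then (((1 / 2 : ℝ) ^ om a * J g a * (Z / a) : ℝ) : ℂ) else 0)‖
        ≤ 1 := by
    intro Z g a hZ
    split_ifs with h
    · rw [Complex.norm_real, Real.norm_eq_abs, abs_mul, abs_mul]
      have ha0 : (0 : ℝ) < a := by
        have := h.1
        have : 0 < a := by omega
        positivity
      have h1 : |(1 / 2 : ℝ) ^ om a| ≤ 1 := by
        rw [abs_of_nonneg (by positivity)]
        exact pow_le_one₀ (by norm_num) (by norm_num)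
      have h2 : |(Z : ℝ) / a| ≤ 1 := by
        rw [abs_of_nonneg (by positivity), div_le_one ha0]
        exact_mod_cast h.1.le
      calc |(1 / 2 : ℝ) ^ om a| * |J g a| * |(Z : ℝ) / a| ≤ 1 * 1 * 1 := by
            gcongr
            exact abs_J_le _ _
        _ = 1 := by norm_num
    · rw [norm_zero]
      exact zero_le_one
  have h1 := hC X Y α β (u - Real.log n) hX hY (fun a => by rw [hα]; exact key X e a hX)
    (fun a => by rw [hβ]; exact key Y f a hY)
  have h2 : ((∑ a ∈ Ioc X (2 * X), ∑ b ∈ Ioc Y (2 * Y),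
      gg u (n * (a * b)) * (J e a * J f b * J a b) : ℝ) : ℂ) =
      (((1 / 2 : ℝ) ^ om n / n / (X * Y) : ℝ) : ℂ) *
      ∑ x ∈ (Ioc X (2 * X)).filter osf, ∑ y ∈ (Ioc Y (2 * Y)).filter osf,
      α x * β y * (J x y : ℂ) * ((φ (u - Real.log n - Real.log x - Real.log y) : ℝ) : ℂ) := by
    rw [mul_sum, Complex.ofReal_sum, sum_filter]
    refine sum_congr rfl fun a ha => ?_
    rw [mem_Ioc] at ha
    by_cases hoa : osf a
    swap
    · rw [if_neg hoa, ← Complex.ofReal_zero]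
      congr 1
      refine sum_eq_zero fun b _ => ?_
      have h3 : ¬ osf (n * (a * b)) := fun h => hoa (osf_mul.1 (osf_mul.1 h).2.1).1
      unfold gg
      rw [if_neg h3, zero_mul]
    rw [if_pos hoa, mul_sum, Complex.ofReal_sum, sum_filter]
    refine sum_congr rfl fun b hb => ?_
    rw [mem_Ioc] at hb
    by_cases hob : osf b
    swap
    · rw [if_neg hob, ← Complex.ofReal_zero]
      congr 1
      have h3 : ¬ osf (n * (a * b)) := fun h => hob (osf_mul.1 (osf_mul.1 h).2.1).2.1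
      unfold gg
      rw [if_neg h3, zero_mul]
    rw [if_pos hob]
    by_cases hab : Nat.Coprime a b
    swap
    · have h3 : J a b = 0 := by
        unfold J
        have : NeZero b := ⟨by have := osf_pos hob; omega⟩
        have : jacobiSym a b = 0 := jacobiSym.eq_zero_iff_not_coprime.2 (by
          intro h4
          exact hab (by simpa [Int.gcd_natCast_natCast] using h4))
        rw [this, Int.cast_zero]
      rw [h3]
      simp
    have hoab : osf (a * b) := osf_mul.2 ⟨hoa, hob, hab⟩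
    have ha0 : (a : ℝ) ≠ 0 := by
      have := osf_pos hoa
      positivity
    have hb0 : (b : ℝ) ≠ 0 := by
      have := osf_pos hob
      positivity
    rw [gg_mul ho, hα, hβ]
    simp only
    by_cases hc : Nat.Coprime (a * b) n
    · have hc' := Nat.Coprime.coprime_mul_right hc
      have hc'' := Nat.Coprime.coprime_mul_left hc
      rw [if_pos ⟨hoab, hc⟩, if_pos ⟨ha.1, hc'⟩, if_pos ⟨hb.1, hc''⟩, om_mul hab, Nat.cast_mul,
        Real.log_mul ha0 hb0, pow_add,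
        show u - Real.log n - (Real.log a + Real.log b) = u - Real.log n - Real.log a - Real.log b
          by ring]
      simp only [← Complex.ofReal_mul]
      congr 1
      field_simp
    · rw [if_neg (fun h => hc h.2)]
      by_cases hc' : Nat.Coprime a n
      · have hc'' : ¬ Nat.Coprime b n := fun h => hc (Nat.Coprime.mul_left hc' h)
        rw [if_neg (fun h : Y < b ∧ Nat.Coprime b n => hc'' h.2)]
        simp
      · rw [if_neg (fun h : X < a ∧ Nat.Coprime a n => hc' h.2)]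
        simp
  have h3 : |∑ a ∈ Ioc X (2 * X), ∑ b ∈ Ioc Y (2 * Y),
      gg u (n * (a * b)) * (J e a * J f b * J a b)| =
      (1 / 2 : ℝ) ^ om n / n / (X * Y) *
      ‖∑ x ∈ (Ioc X (2 * X)).filter osf, ∑ y ∈ (Ioc Y (2 * Y)).filter osf,
      α x * β y * (J x y : ℂ) * ((φ (u - Real.log n - Real.log x - Real.log y) : ℝ) : ℂ)‖ := by
    rw [← Real.norm_eq_abs, ← Complex.norm_real, h2, norm_mul, Complex.norm_real,
      Real.norm_eq_abs, abs_of_nonneg (by positivity)]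
  rw [h3]
  have h4 : (1 / 2 : ℝ) ^ om n ≤ 1 := pow_le_one₀ (by norm_num) (by norm_num)
  calc _ ≤ 1 / n / (X * Y) * (C * (X * Y) * (1 + Real.log (X * Y)) ^ K *
        ((min X Y : ℕ) : ℝ) ^ (-(1 / 8) : ℝ)) := by
        gcongr
    _ = _ := by field_simp

/-- both variables large -/
theorem LL (hSEP : S_SEP) : ∃ K : ℕ, ∀ B : ℕ, ∃ C : ℝ, 0 ≤ C ∧ ∀ (u : ℝ) (z : ℕ) (e f : ℤ) (n : ℕ),
    1 ≤ u → 1 ≤ z → (z : ℝ) ≤ u ^ B → 1 ≤ n →
    |∑ a ∈ Ioc z ⌊Real.exp u⌋₊, ∑ b ∈ Ioc z ⌊Real.exp u⌋₊,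
      gg u (n * (a * b)) * (J e a * J f b * J a b)| ≤
      C * (1 + u) ^ (K + 2) * (z : ℝ) ^ (-(1 / 8) : ℝ) / n := by
  obtain ⟨C, K, hC0, hC⟩ := hSEP
  refine ⟨K, fun B => ⟨4 * C * (2 * B + 5) ^ K, by positivity, ?_⟩⟩
  intro u z e f n hu hz hzB hn
  obtain ⟨N, hN⟩ : ∃ N, N = ⌊Real.exp u⌋₊ := ⟨_, rfl⟩
  obtain ⟨L, hL⟩ : ∃ L, L = ⌈2 * u⌉₊ := ⟨_, rfl⟩
  have hL1 : 2 * u ≤ L := by rw [hL]; exact Nat.le_ceil _
  have hL2 : (L : ℝ) < 2 * u + 1 := by rw [hL]; exact Nat.ceil_lt_add_one (by linarith)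
  have hz0 : (0 : ℝ) < z := by positivity
  have hn0 : (0 : ℝ) < n := by positivity
  have hNL : N ≤ z * 2 ^ L := by
    have h1 : Real.exp u ≤ 2 ^ L := by
      rw [← Real.exp_log (show (0 : ℝ) < 2 ^ L by positivity), Real.log_pow]
      apply Real.exp_le_exp.2
      have := Real.log_two_gt_d9
      nlinarith
    have h2 : (N : ℝ) ≤ 2 ^ L := by
      rw [hN]
      exact (Nat.floor_le (Real.exp_pos u).le).trans h1
    have h3 : N ≤ 2 ^ L := by exact_mod_cast h2
    calc N ≤ 2 ^ L := h3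
      _ ≤ z * 2 ^ L := Nat.le_mul_of_pos_left _ (by omega)
  have ext : ∀ F : ℕ → ℝ, (∀ a, N < a → F a = 0) →
      ∑ a ∈ Ioc z N, F a = ∑ a ∈ Ioc z (z * 2 ^ L), F a := by
    intro F hF
    apply sum_subset (Ioc_subset_Ioc_right hNL)
    intro a ha ha'
    rw [mem_Ioc] at ha ha'
    apply hF
    by_contra hc
    exact ha' ⟨ha.1, not_lt.1 hc⟩
  rw [← hN]
  have e1 : ∑ a ∈ Ioc z N, ∑ b ∈ Ioc z N, gg u (n * (a * b)) * (J e a * J f b * J a b) =
      ∑ i ∈ range L, ∑ j ∈ range L, ∑ a ∈ Ioc (z * 2 ^ i) (2 * (z * 2 ^ i)),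
        ∑ b ∈ Ioc (z * 2 ^ j) (2 * (z * 2 ^ j)),
          gg u (n * (a * b)) * (J e a * J f b * J a b) := by
    rw [ext, sum_dyadic]
    · refine sum_congr rfl fun i _ => ?_
      rw [sum_comm (s := range L)]
      refine sum_congr rfl fun a ha => ?_
      rw [ext, sum_dyadic]
      intro b hb
      rw [gg_zero, zero_mul]
      rw [← hN]
      have ha1 : 1 ≤ a := by
        rw [mem_Ioc] at ha
        omega
      calc N < b := hb
        _ ≤ a * b := Nat.le_mul_of_pos_left _ ha1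
        _ ≤ n * (a * b) := Nat.le_mul_of_pos_left _ hn
    · intro a ha
      refine sum_eq_zero fun b hb => ?_
      rw [gg_zero, zero_mul]
      rw [← hN]
      have hb1 : 1 ≤ b := by
        rw [mem_Ioc] at hb
        omega
      calc N < a := ha
        _ ≤ a * b := Nat.le_mul_of_pos_right _ hb1
        _ ≤ n * (a * b) := Nat.le_mul_of_pos_left _ hn
  rw [e1]
  obtain ⟨T, hT⟩ : ∃ T : ℝ, T = C * ((2 * B + 5) ^ K * (1 + u) ^ K) * (z : ℝ) ^ (-(1 / 8) : ℝ) / n :=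
    ⟨_, rfl⟩
  have hT0 : 0 ≤ T := by
    rw [hT]
    positivity
  have e2 : ∀ i ∈ range L, ∀ j ∈ range L, |∑ a ∈ Ioc (z * 2 ^ i) (2 * (z * 2 ^ i)),
        ∑ b ∈ Ioc (z * 2 ^ j) (2 * (z * 2 ^ j)),
          gg u (n * (a * b)) * (J e a * J f b * J a b)| ≤ T := by
    intro i hi j hj
    rw [mem_range] at hi hj
    have hb := box hC u (z * 2 ^ i) (z * 2 ^ j) (Nat.mul_pos hz (by positivity))
      (Nat.mul_pos hz (by positivity)) e f n hn
    refine hb.trans ?_
    rw [hT]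
    have hlz : Real.log z ≤ B * u := by
      calc Real.log z ≤ Real.log (u ^ B) := Real.log_le_log hz0 hzB
        _ = B * Real.log u := Real.log_pow _ _
        _ ≤ B * u := by
          gcongr
          have := Real.log_le_sub_one_of_pos (show 0 < u by linarith)
          linarith
    have hlog : ∀ i, i < L → Real.log ((z * 2 ^ i : ℕ) : ℝ) ≤ B * u + (2 * u + 1) := by
      intro i hi
      rw [Nat.cast_mul, Real.log_mul hz0.ne' (by positivity), Nat.cast_pow, Real.log_pow]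
      have h1 : (i : ℝ) ≤ 2 * u + 1 := by
        have : (i : ℝ) < L := by exact_mod_cast hi
        linarith
      have h2 : Real.log ((2 : ℕ) : ℝ) ≤ 1 := by
        have := Real.log_two_lt_d9
        push_cast
        linarith
      have h3 : 0 ≤ Real.log ((2 : ℕ) : ℝ) := Real.log_natCast_nonneg 2
      have : (i : ℝ) * Real.log ((2 : ℕ) : ℝ) ≤ (2 * u + 1) * 1 :=
        mul_le_mul h1 h2 h3 (by linarith)
      linarith
    have hl0 : ∀ i, 0 ≤ Real.log ((z * 2 ^ i : ℕ) : ℝ) := fun i => Real.log_natCast_nonneg _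
    have hl : Real.log (((z * 2 ^ i : ℕ) : ℝ) * ((z * 2 ^ j : ℕ) : ℝ)) =
        Real.log ((z * 2 ^ i : ℕ) : ℝ) + Real.log ((z * 2 ^ j : ℕ) : ℝ) := by
      apply Real.log_mul
      · have : 0 < z * 2 ^ i := Nat.mul_pos hz (by positivity)
        positivity
      · have : 0 < z * 2 ^ j := Nat.mul_pos hz (by positivity)
        positivity
    rw [hl]
    have h5 : 1 + (Real.log ((z * 2 ^ i : ℕ) : ℝ) + Real.log ((z * 2 ^ j : ℕ) : ℝ)) ≤
        (2 * B + 5) * (1 + u) := by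
      have h6 := hlog i hi
      have h7 := hlog j hj
      have h8 : (0 : ℝ) ≤ B := Nat.cast_nonneg B
      nlinarith
    have h9 : ((min (z * 2 ^ i) (z * 2 ^ j) : ℕ) : ℝ) ^ (-(1 / 8) : ℝ) ≤
        (z : ℝ) ^ (-(1 / 8) : ℝ) := by
      apply Real.rpow_le_rpow_of_nonpos hz0
      · have h10 : z ≤ min (z * 2 ^ i) (z * 2 ^ j) :=
          le_min (Nat.le_mul_of_pos_right z (by positivity))
            (Nat.le_mul_of_pos_right z (by positivity))
        exact_mod_cast h10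
      · norm_num
    have h11 := hl0 i
    have h12 := hl0 j
    rw [← mul_pow]
    gcongr
  calc |∑ i ∈ range L, ∑ j ∈ range L, ∑ a ∈ Ioc (z * 2 ^ i) (2 * (z * 2 ^ i)),
        ∑ b ∈ Ioc (z * 2 ^ j) (2 * (z * 2 ^ j)),
          gg u (n * (a * b)) * (J e a * J f b * J a b)|
      ≤ ∑ i ∈ range L, ∑ j ∈ range L, T := by
        refine (abs_sum_le_sum_abs _ _).trans (sum_le_sum fun i hi => ?_)
        exact (abs_sum_le_sum_abs _ _).trans (sum_le_sum fun j hj => e2 i hi j hj)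
    _ = (L : ℝ) ^ 2 * T := by
        rw [sum_const, sum_const, card_range]
        simp only [nsmul_eq_mul]
        ring
    _ ≤ (2 * (1 + u)) ^ 2 * T := by
        gcongr
        linarith
    _ = _ := by
        rw [hT]
        ring

end

end Pool.Agent.Y846.FK
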